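import Mathlib
import Pool.Agent.P.MP_7322d1_co.Defs
import Pool.Agent.P.MP_7322d1_co.Q1

set_option autoImplicit false

open MeasureTheory Pool.Agent.P.MP_7322d1_co

/-- Q1: for even `d ≥ 2`, `C_d(d+3)` is an inscribed cyclic polytope with `d+3` vertices, it has
maximal volume among these, and the maximisers are exactly its congruent copies. -/
theorem Pool.Agent.Results.MP_7322d1_co.MaxVolume.result :
    ∀ d : ℕ, Even d → 2 ≤ d →
      (IsInscribed d (d + 3) (trigPolytope d (d + 3)) ∧
        IsCyclicPolytope d (d + 3) (trigPolytope d (d + 3))) ∧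
      ∀ P : Set (EuclideanSpace ℝ (Fin d)), IsInscribed d (d + 3) P →
        IsCyclicPolytope d (d + 3) P →
          volume P ≤ volume (trigPolytope d (d + 3)) ∧
            (volume P = volume (trigPolytope d (d + 3)) ↔
              IsCongruent P (trigPolytope d (d + 3))) := by
  intro d hd hd2
  refine ⟨⟨trig_inscribed hd (by omega), trig_cyclic hd (by omega)⟩, fun P hI hC => ?_⟩
  obtain ⟨h1, h2⟩ := q1 hd hd2 hI hC
  exact ⟨h1, fun h => h2 h.ge, fun h => h.vol_eq⟩
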