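import Mathlib
import Pool.Agent.P.MP_7322d1_co.Defs
import Pool.Agent.P.MP_7322d1_co.DefsZ
import Pool.Agent.P.MP_7322d1_co.Q2

set_option autoImplicit false

open Pool.Agent.P.MP_7322d1_co

/-- Q2: for even `d ≥ 2`, an inscribed cyclic polytope with `d+3` vertices has Property Z if and
only if it is congruent to `C_d(d+3)`. -/
theorem Pool.Agent.Results.MP_7322d1_co.PropertyZ.result :
    ∀ d : ℕ, Even d → 2 ≤ d →
      ∀ P : Set (EuclideanSpace ℝ (Fin d)), IsInscribed d (d + 3) P →
        IsCyclicPolytope d (d + 3) P →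
          (HasPropertyZ P ↔ IsCongruent P (trigPolytope d (d + 3))) :=
  fun _ hd hd2 _ hI hC => ⟨q2 hd hd2 hI hC, q2' hd hd2 hI hC⟩
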